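import Pool.Agent.Q329.GI.Few

/-!
# Graph isomorphism needs exponential size for circuits with `(1 - ε) log N` NOT gates

Pairs `(G, H)` of graphs on the vertices `0, …, N - 1` are given by the adjacency bits of both graphs.
We consider randomised circuits with these bits and real constants as inputs, gates of fan-in two that
compute arbitrary nondecreasing real functions (AND and OR gates, for example), and further gates,
the `i`-th of them with `w i` wires, each of which tells whether the value of an earlier gate reaches a
threshold; a further gate computes an arbitrary function of its `w i` bits. A NOT gate is a further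
gate with `w i = 1`; so `t` NOT gates have `∏ (w i + 1) = 2 ^ t`.

Result. Let `0 ≤ a < 1`, `0 < c < (1 - a) / 104` and `ξ > 0`. For all large `N`, every randomised
circuit of this kind which decides isomorphism of graphs with `N` vertices with error probability at
most `1 / 2 - ξ` and with `∏ (w i + 1) ≤ N ^ a` has more than `2 ^ (N ^ c)` gates and wires of further
gates. In particular `a log₂ N` NOT gates are not enough for circuits of subexponential size with
AND, OR and NOT gates, for each `a < 1`, while about `2 log₂ N` NOT gates are as good as any number
of NOT gates (Markov, Fischer). The result also holds for one completely arbitrary function of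
`N ^ a - 1` threshold bits.

Definitions used in the statement: `Pool/Agent/H630VC/Model.lean` (`Mono2`: nondecreasing in both
arguments), `Pool/Agent/H630VC/FreeModel.lean` (`FProg`: circuits, as lists of the functions computed
by the gates; `wires`: the sum of the `w i`; `combos`: the product of the numbers `w i + 1`),
`Pool/Agent/H630GI/Model.lean` (`pairInputs`: the inputs; `DecidesIso ξ f`: for each pair of graphs at
least a fraction `1 / 2 + ξ` of the `f r` have a value less than `1` if the graphs are isomorphic, and
a value at least `1` otherwise).

Proof. Random systems of parity equations with four variables each, in `k` blocks of `b` variables,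
are told apart from satisfied ones by solving them, but not by small monotone real circuits
(`Pool/Agent/H630XR`). A system and its homogeneous version give a pair of graphs (Cai, Fürer,
Immerman), which are isomorphic if and only if the system is solvable, and whose adjacency bits are
constants or bits which tell whether an equation is present. Along a walk which makes one block after
the other complete, the bits of the further gates change at most `∏ (w i + 1)` times, but the circuit
has to notice in each of the `k ≥ N ^ a` blocks whether it is solvable (`Pool/Agent/H630GI`; its last
theorem `iso_walk` was not used so far; the choice of the parameters is new).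
-/

set_option autoImplicit false

open Finset H630VC H630GI

/-- Let `0 ≤ a < 1`, `0 < c < (1 - a) / 104`, `ξ > 0`. For all large `N`: if the circuits `l r`,
`r ∈ R`, of monotone real gates with further gates `q r` decide isomorphism of pairs of graphs with
`N` vertices with advantage `ξ`, and the product of the numbers (number of wires) + 1 over the further
gates of each circuit is at most `N ^ a`, then some circuit has more than `2 ^ (N ^ c)` gates and
wires of further gates. -/
theorem Pool.Agent.Results.MP_f1a348_lc.FewNotGates.result (a c ξ : ℝ) (ha0 : 0 ≤ a) (ha : a < 1)
    (hc0 : 0 < c) (hc : c < (1 - a) / 104) (hξ : 0 < ξ) :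
    ∃ N₀ : ℕ, ∀ N : ℕ, N₀ ≤ N → ∀ (R : Type) [Fintype R] [Nonempty R]
      (f : R → SimpleGraph (Fin N) × SimpleGraph (Fin N) → ℝ)
      (l : R → List (SimpleGraph (Fin N) × SimpleGraph (Fin N) → ℝ))
      (q : R → List (List ((SimpleGraph (Fin N) × SimpleGraph (Fin N) → ℝ) × ℝ))),
      (∀ r, FProg (pairInputs (Fin N)) (l r) (q r)) → (∀ r, f r ∈ l r) → DecidesIso ξ f →
      (∀ r, (combos (q r) : ℝ) ≤ (N : ℝ) ^ a) →
      ∃ r, (2 : ℝ) ^ ((N : ℝ) ^ c) < (l r).length + wires (q r) :=
  Pool.Agent.Q329.GI.few a c ξ ha0 ha hc0 hc hξ
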