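import Pool.Agent.H429R4.GC.Iso

/-!
# Two very different graphs which all circuits with few wirings treat in the same way on average

Circuits have gates of unbounded fan-in computing arbitrary functions of the multiset of the
(labelled) incoming values; no symmetry is assumed. The wiring of a gate is the input bit it reads
together with the multiset of the labels and functions on its incoming wires, and `numWirings` counts
the different transforms of the wirings of all gates when the first of two graphs is relabeled.

For every `R > 0` there is `K` such that for each `n ≥ K` there are two graphs `G`, `H` with `n`
vertices, the clique number of `G` being more than `R` times that of `H`, such that every circuit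
whose wirings have less than `2 ^ (n / K)` transforms gives each output value equally often on the
pairs (relabeling of `G`, `F`) and (relabeling of `H`, `F`), for every graph `F`. So no distribution
over such circuits has any advantage in deciding whether a random relabeling is a copy of `F = G`.
-/

set_option autoImplicit false

namespace Pool.Agent.Results.MP_f1a348_lc.FixedPairWirings

open Pool.Agent.H429R4.Sem (Circuit)
open Pool.Agent.H429R4.GC

/-- **A fixed pair of graphs on which circuits with few wirings have no advantage.** -/
theorem result (R : ℕ) (hR : 0 < R) : ∃ K : ℕ, ∀ (W : Type) [Fintype W], K ≤ Fintype.card W →
    ∃ (G H : SimpleGraph W) (k : ℕ), ¬ G.CliqueFree k ∧ (∀ q, k ≤ R * q → H.CliqueFree q) ∧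
      IsEmpty (G ≃g H) ∧
      ∀ (D L : Type) (C : Circuit ((W × W) ⊕ (W × W)) D L) (d : D),
        numWirings adjPair C (firstRelabelings W) ^ K < 2 ^ Fintype.card W →
        ∀ F : SimpleGraph W,
          Nat.card {σ : Equiv.Perm W // C.output (adjPair (G.comap σ, F)) = d} =
            Nat.card {σ : Equiv.Perm W // C.output (adjPair (H.comap σ, F)) = d} :=
  iso_pair hR

end Pool.Agent.Results.MP_f1a348_lc.FixedPairWirings
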