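import Pool.Agent.TH658.Sos.Grp

/-!
# Algebraic and sum-of-squares proofs of degree `Ω(log n)` are needed for the isomorphism of groups

There is a constant `C` such that for every odd prime `p` and every `d ≥ 1` there are two
non-isomorphic groups `G`, `H` of the same order `n = p ^ r`, `r ≤ C d`, of exponent `p` and
nilpotency class two, whose Latin square graphs are not isomorphic, but whose isomorphism is refuted
in degree `d` neither by the polynomial calculus over any field of characteristic different from `p`
nor by the Positivstellensatz calculus (sums of squares) over the reals.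
-/

set_option autoImplicit false

namespace Pool.Agent.Results.MP_f1a348_lc.GroupProofs

open Pool.Agent.W185.SRG Pool.Agent.W185.LSQ Pool.Agent.W879.GW Pool.Agent.TH658.Sos

/-- Refutations of the isomorphism of the Latin square graphs of groups of order `n = p ^ r` need
degree at least `r / C`, that is of order `log n` for fixed `p`, in the polynomial calculus over
every field of characteristic different from `p` and in the Positivstellensatz calculus. -/
theorem result : ∃ C : ℕ, ∀ p : ℕ, p.Prime → p ≠ 2 → ∀ d : ℕ, 1 ≤ d →
    ∃ (G H : Type) (_ : Group G) (_ : Group H) (_ : Fintype G) (_ : Fintype H) (r : ℕ),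
      r ≤ C * d ∧ Fintype.card G = p ^ r ∧ Fintype.card H = p ^ r ∧
      ExpClassTwo p G ∧ ExpClassTwo p H ∧ IsEmpty (G ≃* H) ∧
      IsEmpty (latinGraph (fun a b : G => a * b) ≃g latinGraph (fun a b : H => a * b)) ∧
      (∀ (K : Type) [Field K], (p : K) ≠ 0 → ¬ PCRefutes K (latinGraph fun a b : G => a * b)
        (latinGraph fun a b : H => a * b) d) ∧
      ¬ PosRefutes (latinGraph fun a b : G => a * b) (latinGraph fun a b : H => a * b) d :=
  ⟨2022, fun p hp hp2 d hd => mainGroups p hp hp2 d hd⟩

end Pool.Agent.Results.MP_f1a348_lc.GroupProofs
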