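import Pool.Agent.Q245.STS.Main

/-!
# Proofs of degree `Ω(log n)` for the isomorphism of block graphs of Steiner triple systems

There is a constant `C` such that for every `d ≥ 1` there are two Steiner triple systems on the same
set of `3 ^ r` points, `r ≤ C d`, whose block graphs are not isomorphic, but the isomorphism of the
block graphs is refuted in degree `d` neither by the polynomial calculus over any field of
characteristic different from three nor by the Positivstellensatz calculus (sums of squares) over
the reals. The systems are Hall triple systems: every point is the only fixed point of an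
automorphism of order two.

The starting result `MP_f1a348_lc.GroupWLDimension` and the result `MP_f1a348_lc.GroupProofs` treat
the Latin square graphs of groups. See `Pool/Agent/Results/MP_128e7d_lc/SteinerInvertibleMaps.lean`
for the idea of the construction.
-/

set_option autoImplicit false

namespace Pool.Agent.Results.MP_f1a348_lc.SteinerProofs

open Pool.Agent.Q245.STS Pool.Agent.TH658.Sos

theorem result : ∃ C : ℕ, ∀ d : ℕ, 1 ≤ d →
    ∃ (X : Type) (_ : Fintype X) (_ : DecidableEq X) (D E : Finset (Finset X)) (r : ℕ),
      r ≤ C * d ∧ Fintype.card X = 3 ^ r ∧ IsHall D ∧ IsHall E ∧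
      IsEmpty (blockGraph D ≃g blockGraph E) ∧
      (∀ (F : Type) [Field F], (3 : F) ≠ 0 →
        ¬ PCRefutes F (blockGraph D) (blockGraph E) d) ∧
      ¬ PosRefutes (blockGraph D) (blockGraph E) d := by
  refine ⟨2023, fun d hd => ?_⟩
  obtain ⟨X, i1, i2, D, E, r, h1, h2, h3, h4, h5, -, h6⟩ := core (6 * (d + 1)) (by omega)
  exact ⟨X, i1, i2, D, E, r, by omega, h2, h3, h4, h5, (h6 d le_rfl).1, (h6 d le_rfl).2⟩

end Pool.Agent.Results.MP_f1a348_lc.SteinerProofs
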